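import Pool.Agent.H68.GHY.Targets

/-!
Board ghy, row AFS: the splitting of the Mellin integral on the critical line.
-/

namespace Pool.Agent.H47.GHY

open MeasureTheory Set Pool.Agent.H34.GM Pool.Agent.H34.GZ Pool.Agent.H34.GU Pool.Agent.H34.GA
open Pool.Agent.H68.GHY

theorem win_int {w : ℝ → ℝ} {k : ℝ → ℂ} (hw : Win w k) : Integrable w := by
  by_contra h
  have := hw.one
  rw [integral_undef h] at this
  norm_num at this

theorem wq_meas {w : ℝ → ℝ} {k : ℝ → ℂ} (hw : Win w k) (R : ℝ) : Measurable (Wq w R) := by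
  have h : Measurable (Function.uncurry fun (r v : ℝ) => w (Real.log r - v)) :=
    hw.cont.measurable.comp ((Real.measurable_log.comp measurable_fst).sub measurable_snd)
  exact (h.stronglyMeasurable.integral_prod_right (ν := volume.restrict (Iic (Real.log R)))).measurable

theorem wq_nn {w : ℝ → ℝ} {k : ℝ → ℂ} (hw : Win w k) (R r : ℝ) : 0 ≤ Wq w R r :=
  integral_nonneg fun v => hw.nn _

theorem wq_le {w : ℝ → ℝ} {k : ℝ → ℂ} (hw : Win w k) (R r : ℝ) : Wq w R r ≤ 1 := by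
  have h1 : Integrable fun v => w (Real.log r - v) := (win_int hw).comp_sub_left _
  calc Wq w R r ≤ ∫ v, w (Real.log r - v) :=
        setIntegral_le_integral h1 (Filter.Eventually.of_forall fun v => hw.nn _)
    _ = ∫ v, w v := integral_sub_left_eq_self w volume _
    _ = 1 := hw.one

theorem wq_refl {w : ℝ → ℝ} {k : ℝ → ℂ} (hw : Win w k) {R r κ : ℝ} (hR : 0 < R) (hr : 0 < r)
    (hκ : 0 < κ) : 1 - Wq w R r = Wq w (κ / R) (κ / r) := by
  have h1 : Integrable fun v => w (Real.log r - v) := (win_int hw).comp_sub_left _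
  have h2 : ∫ v, w (Real.log r - v) = 1 := by
    rw [integral_sub_left_eq_self w volume (Real.log r)]; exact hw.one
  have h3 : Wq w R r + ∫ v in Ioi (Real.log R), w (Real.log r - v) = 1 := by
    rw [← h2]
    exact intervalIntegral.integral_Iic_add_Ioi h1.integrableOn h1.integrableOn
  have h4 : ∫ v in Ioi (Real.log R), w (Real.log r - v) = Wq w (κ / R) (κ / r) := by
    unfold Wq
    rw [integral_Iic_eq_integral_Iio, ← integral_indicator measurableSet_Ioi,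
      ← integral_indicator measurableSet_Iio,
      ← integral_sub_left_eq_self _ volume (Real.log κ)]
    refine integral_congr_ae (Filter.Eventually.of_forall fun v => ?_)
    simp only [indicator, mem_Ioi, mem_Iio]
    rw [Real.log_div hκ.ne' hR.ne', Real.log_div hκ.ne' hr.ne']
    by_cases hv : Real.log R < Real.log κ - v
    · rw [if_pos hv, if_pos (by linarith), ← hw.even]
      ring_nf
    · rw [if_neg hv, if_neg (by intro h; exact hv (by linarith))]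
  linarith

theorem cpow_exp (a : ℝ) (z : ℂ) : ((Real.exp a : ℝ) : ℂ) ^ z = Complex.exp (a * z) := by
  rw [Complex.cpow_def_of_ne_zero (by exact_mod_cast (Real.exp_pos a).ne'),
    ← Complex.ofReal_log (Real.exp_pos a).le, Real.log_exp]

theorem key_id (m : ℕ) {κ ρ : ℝ} (t : ℝ) (hκ : 0 < κ) (hρ : 0 < ρ) (s : ℂ)
    (hs : s = -((m : ℂ) * ((1 / 2 + (t : ℂ) * Complex.I) + ((m : ℂ) - 1) / 2)) - 1) :
    ((κ⁻¹ * (|(-1 : ℝ)| * (κ⁻¹ * ρ) ^ ((-1 : ℝ) - 1)) *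
      ((κ * ρ⁻¹) ^ (m ^ 2) * κ ^ (-((m : ℝ) ^ 2 / 2))) : ℝ) : ℂ) *
      ((κ * ρ⁻¹ : ℝ) : ℂ) ^ s = (κ : ℂ) ^ (-((m : ℂ) * (t : ℂ) * Complex.I)) *
      (starRingEnd ℂ) ((ρ : ℂ) ^ s) := by
  obtain ⟨a, rfl⟩ : ∃ a, κ = Real.exp a := ⟨Real.log κ, (Real.exp_log hκ).symm⟩
  obtain ⟨b, rfl⟩ : ∃ b, ρ = Real.exp b := ⟨Real.log ρ, (Real.exp_log hρ).symm⟩
  have e1 : Real.exp a * (Real.exp b)⁻¹ = Real.exp (a - b) := by
    rw [Real.exp_sub, div_eq_mul_inv]
  have e2 : (Real.exp a)⁻¹ * Real.exp b = Real.exp (b - a) := by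
    rw [Real.exp_sub, div_eq_mul_inv, mul_comm]
  rw [e1, e2, cpow_exp, cpow_exp, cpow_exp, ← Complex.exp_conj, ← Real.exp_mul, ← Real.exp_mul,
    ← Real.exp_nat_mul, ← Real.exp_neg, abs_neg, abs_one, one_mul, ← Real.exp_add, ← Real.exp_add,
    ← Real.exp_add, Complex.ofReal_exp, ← Complex.exp_add, ← Complex.exp_add, hs]
  congr 1
  simp only [map_mul, map_sub, map_neg, map_add, map_one, map_div₀, Complex.conj_ofReal,
    Complex.conj_I, map_natCast, map_ofNat]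
  push_cast
  ring

theorem pf_AFS : T_AFS := by
  intro w k hw m K κ lam ψ ψ' C1 M hm hκ hK hlam hWc hc' hb hfe R hR t
  set s : ℂ := -((m : ℂ) * ((1 / 2 + (t : ℂ) * Complex.I) + ((m : ℂ) - 1) / 2)) - 1 with hs
  have hLm : LmA m ψ lam (1 / 2 + (t : ℂ) * Complex.I) =
      ∫ r in Ioi (0 : ℝ), thA m ψ lam r * ((r : ℝ) : ℂ) ^ s := rfl
  have hH : ∀ (R : ℝ) (ψ : ℝ → ℂ), HW m w R ψ lam t =
      ∫ r in Ioi (0 : ℝ), (Wq w R r : ℂ) * (thA m ψ lam r * ((r : ℝ) : ℂ) ^ s) :=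
    fun R ψ => rfl
  by_cases hI : IntegrableOn (fun r : ℝ => thA m ψ lam r * ((r : ℝ) : ℂ) ^ s) (Ioi 0)
  swap
  · rw [hLm, integral_undef hI, norm_zero]
    positivity
  have hI1 : IntegrableOn (fun r : ℝ => (Wq w R r : ℂ) * (thA m ψ lam r * ((r : ℝ) : ℂ) ^ s))
      (Ioi 0) := by
    refine Integrable.bdd_mul (c := 1) hI
      (Complex.measurable_ofReal.comp (wq_meas hw R)).aestronglyMeasurable
      (Filter.Eventually.of_forall fun r => ?_)
    rw [Complex.norm_real, Real.norm_eq_abs, abs_of_nonneg (wq_nn hw R r)]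
    exact wq_le hw R r
  have h1 : LmA m ψ lam (1 / 2 + (t : ℂ) * Complex.I) = HW m w R ψ lam t +
      ∫ r in Ioi (0 : ℝ), ((1 - Wq w R r : ℝ) : ℂ) * (thA m ψ lam r * ((r : ℝ) : ℂ) ^ s) := by
    rw [hLm, hH, ← integral_add hI1]
    · refine integral_congr_ae (Filter.Eventually.of_forall fun r => ?_)
      simp only [Complex.ofReal_sub, Complex.ofReal_one]
      ring
    · have : (fun r : ℝ => ((1 - Wq w R r : ℝ) : ℂ) * (thA m ψ lam r * ((r : ℝ) : ℂ) ^ s)) =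
          fun r : ℝ => thA m ψ lam r * ((r : ℝ) : ℂ) ^ s -
            (Wq w R r : ℂ) * (thA m ψ lam r * ((r : ℝ) : ℂ) ^ s) := by
        funext r
        simp only [Complex.ofReal_sub, Complex.ofReal_one]
        ring
      rw [this]
      exact Integrable.sub hI hI1
  have h2 : ‖∫ r in Ioi (0 : ℝ), ((1 - Wq w R r : ℝ) : ℂ) * (thA m ψ lam r * ((r : ℝ) : ℂ) ^ s)‖ =
      ‖HW m w (κ / R) ψ' lam t‖ := by
    have hG := integral_comp_rpow_Ioi (fun r : ℝ => ((1 - Wq w R r : ℝ) : ℂ) *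
      (thA m ψ lam r * ((r : ℝ) : ℂ) ^ s)) (p := -1) (by norm_num)
    rw [← hG]
    have hH2 := integral_comp_mul_left_Ioi' (fun x : ℝ => (|(-1 : ℝ)| * x ^ ((-1 : ℝ) - 1)) •
      (((1 - Wq w R (x ^ (-1 : ℝ)) : ℝ) : ℂ) *
      (thA m ψ lam (x ^ (-1 : ℝ)) * ((x ^ (-1 : ℝ) : ℝ) : ℂ) ^ s))) 0 (b := κ⁻¹) (inv_pos.2 hκ)
    rw [mul_zero] at hH2
    rw [← hH2, ← integral_smul, hH]
    have h3 : ∫ x in Ioi (0 : ℝ), κ⁻¹ • ((|(-1 : ℝ)| * (κ⁻¹ * x) ^ ((-1 : ℝ) - 1)) •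
        (((1 - Wq w R ((κ⁻¹ * x) ^ (-1 : ℝ)) : ℝ) : ℂ) *
        (thA m ψ lam ((κ⁻¹ * x) ^ (-1 : ℝ)) * (((κ⁻¹ * x) ^ (-1 : ℝ) : ℝ) : ℂ) ^ s))) =
        ∫ x in Ioi (0 : ℝ), (κ : ℂ) ^ (-((m : ℂ) * (t : ℂ) * Complex.I)) *
          (starRingEnd ℂ) ((Wq w (κ / R) x : ℂ) * (thA m ψ' lam x * ((x : ℝ) : ℂ) ^ s)) := by
      refine setIntegral_congr_fun measurableSet_Ioi fun x hx => ?_
      have hx0 : (0 : ℝ) < x := hx
      have e0 : (κ⁻¹ * x) ^ (-1 : ℝ) = κ * x⁻¹ := by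
        rw [Real.rpow_neg_one, mul_inv, inv_inv]
      have e1 : 1 - Wq w R (κ * x⁻¹) = Wq w (κ / R) x := by
        rw [wq_refl hw hR (mul_pos hκ (inv_pos.2 hx0)) hκ]
        congr 1
        field_simp
      have e2 := hfe (κ * x⁻¹) (mul_pos hκ (inv_pos.2 hx0))
      have e3 : κ / (κ * x⁻¹) = x := by field_simp
      rw [e3] at e2
      simp only [e0, e1, e2]
      have e4 := key_id m t hκ hx0 s hs
      simp only [Complex.real_smul, map_mul, Complex.conj_ofReal]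
      calc _ = (((κ⁻¹ * (|(-1 : ℝ)| * (κ⁻¹ * x) ^ ((-1 : ℝ) - 1)) *
            ((κ * x⁻¹) ^ (m ^ 2) * κ ^ (-((m : ℝ) ^ 2 / 2))) : ℝ) : ℂ) *
            ((κ * x⁻¹ : ℝ) : ℂ) ^ s) * ((Wq w (κ / R) x : ℂ) *
            (starRingEnd ℂ) (thA m ψ' lam x)) := by
              push_cast
              ring
        _ = _ := by
              rw [e4]
              ring
    rw [h3, integral_const_mul, norm_mul, integral_conj, RCLike.norm_conj]
    have h4 : ‖(κ : ℂ) ^ (-((m : ℂ) * (t : ℂ) * Complex.I))‖ = 1 := by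
      rw [Complex.norm_cpow_eq_rpow_re_of_pos hκ]
      simp
    rw [h4, one_mul]
  rw [h1, ← h2]
  exact norm_add_le _ _

end Pool.Agent.H47.GHY
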